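import Pool.Agent.Q44.SA.Def

set_option autoImplicit false

/-! Project SA (helper44): morphisms and points, basic facts (helper190). -/

namespace Pool.Agent.Q190.SA

open Pool.Agent.Q44.SA MvPolynomial

variable {K F : Type} [Field K] [Field F] {n : ℕ} {I : Ideal (MvPolynomial (Fin n) K)}

/-- homogeneity of the evaluation -/
theorem eval2_smul (σ : K →+* F) {p : MvPolynomial (Fin n) K} {d : ℕ} (hp : p.IsHomogeneous d)
    (s : F) (x : Fin n → F) : eval₂ σ (s • x) p = s ^ d * eval₂ σ x p := by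
  rw [eval₂_eq', eval₂_eq', Finset.mul_sum]
  refine Finset.sum_congr rfl fun e he => ?_
  have h1 : e.degree = d := by
    by_contra hcon
    exact (mem_support_iff.1 he) (hp.coeff_eq_zero hcon)
  have h2 : ∏ i, (s • x) i ^ e i = s ^ d * ∏ i, x i ^ e i := by
    simp only [Pi.smul_apply, smul_eq_mul, mul_pow]
    rw [Finset.prod_mul_distrib, Finset.prod_pow_eq_pow_sum, ← h1, Finsupp.degree_eq_sum]
  rw [h2]
  ring

theorem exists_ne (φ : Mor I) (σ : K →+* F) {x : Fin n → F} (hx : Pt σ I x) :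
    ∃ l a, eval₂ σ x (φ.F l a) ≠ 0 := by
  by_contra hcon
  push Not at hcon
  obtain ⟨k, hk⟩ := Function.ne_iff.1 hx.1
  have hle : I ⊔ Ideal.span {g | ∃ l a, g = φ.F l a} ≤ RingHom.ker (eval₂Hom σ x) := by
    refine sup_le (fun f hf => ?_) (Ideal.span_le.2 ?_)
    · rw [RingHom.mem_ker, coe_eval₂Hom]
      exact hx.2 f hf
    · rintro g ⟨l, a, rfl⟩
      show φ.F l a ∈ RingHom.ker (eval₂Hom σ x)
      rw [RingHom.mem_ker, coe_eval₂Hom]
      exact hcon l a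
  obtain ⟨M, hM⟩ := Ideal.mem_radical_iff.1 (φ.base k)
  have h1 := hle hM
  rw [RingHom.mem_ker, map_pow, eval₂Hom_X'] at h1
  exact hk (eq_zero_of_pow_eq_zero h1)

theorem agree_at (φ : Mor I) (σ : K →+* F) {x : Fin n → F} (hx : Pt σ I x) (l l' : Fin φ.p)
    (a b : Fin n) : eval₂ σ x (φ.F l a) * eval₂ σ x (φ.F l' b) =
      eval₂ σ x (φ.F l b) * eval₂ σ x (φ.F l' a) := by
  have h := hx.2 _ (φ.agree l l' a b)
  rw [← coe_eval₂Hom, map_sub, map_mul, map_mul] at h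
  exact sub_eq_zero.1 h

theorem bind_at (σ : K →+* F) (x : Fin n → F) (g : Fin n → MvPolynomial (Fin n) K)
    (f : MvPolynomial (Fin n) K) :
    eval₂ σ x (bind₁ g f) = eval₂ σ (fun i => eval₂ σ x (g i)) f := by
  have h := eval₂Hom_bind₁ σ x g f
  exact h

/-- uniqueness of the image up to scalars -/
theorem rel_unique (φ : Mor I) (σ : K →+* F) {x y y' : Fin n → F} (hx : Pt σ I x)
    (h : φ.Rel σ x y) (h' : φ.Rel σ x y') : ∃ t : F, t ≠ 0 ∧ y' = t • y := by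
  obtain ⟨l, ⟨a, ha⟩, c, hc, hy⟩ := h
  obtain ⟨l', ⟨a', ha'⟩, c', hc', hy'⟩ := h'
  have hag : ∀ b, eval₂ σ x (φ.F l' b) =
      eval₂ σ x (φ.F l' a) / eval₂ σ x (φ.F l a) * eval₂ σ x (φ.F l b) := by
    intro b
    have h1 := agree_at φ σ hx l l' a b
    field_simp
    rw [mul_comm, h1]
    ring
  have h0 : eval₂ σ x (φ.F l' a) ≠ 0 := by
    intro h0
    apply ha'
    rw [hag a', h0, zero_div, zero_mul]
  refine ⟨c' * (eval₂ σ x (φ.F l' a) / eval₂ σ x (φ.F l a)) / c, ?_, ?_⟩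
  · exact div_ne_zero (mul_ne_zero hc' (div_ne_zero h0 ha)) hc
  · funext b
    rw [Pi.smul_apply, smul_eq_mul, hy' b, hy b, hag b]
    field_simp

/-- scaling -/
theorem rel_smul (φ : Mor I) (σ : K →+* F) {x y : Fin n → F} (h : φ.Rel σ x y) {s t : F}
    (hs : s ≠ 0) (ht : t ≠ 0) : φ.Rel σ (s • x) (t • y) := by
  obtain ⟨l, ⟨a, ha⟩, c, hc, hy⟩ := h
  refine ⟨l, ⟨a, ?_⟩, t * c / s ^ φ.d l, div_ne_zero (mul_ne_zero ht hc) (pow_ne_zero _ hs), ?_⟩
  · rw [eval2_smul σ (φ.hom l a)]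
    exact mul_ne_zero (pow_ne_zero _ hs) ha
  · intro b
    rw [eval2_smul σ (φ.hom l b), Pi.smul_apply, smul_eq_mul, hy b]
    have := pow_ne_zero (φ.d l) hs
    field_simp

theorem rel_unique_smul (φ : Mor I) (σ : K →+* F) {x y y' : Fin n → F} (hx : Pt σ I x)
    (h : φ.Rel σ x y) {s : F} (hs : s ≠ 0) (h' : φ.Rel σ (s • x) y') :
    ∃ t : F, t ≠ 0 ∧ y' = t • y := by
  have h1 := rel_smul φ σ h' (inv_ne_zero hs) (one_ne_zero (α := F))
  rw [smul_smul, inv_mul_cancel₀ hs, one_smul, one_smul] at h1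
  exact rel_unique φ σ hx h h1

/-- the inverse morphism -/
theorem rel_inv (φ ψ : Mor I) (hinv : LeftInv ψ φ) (σ : K →+* F) {x y : Fin n → F}
    (hx : Pt σ I x) (h : φ.Rel σ x y) (hy : Pt σ I y) : ψ.Rel σ y x := by
  obtain ⟨l, ⟨a, ha⟩, c, hc, hyc⟩ := h
  obtain ⟨l', b, hb⟩ := exists_ne ψ σ hy
  have hyz : y = c • (fun i => eval₂ σ x (φ.F l i)) := by
    funext i
    rw [Pi.smul_apply, smul_eq_mul]
    exact hyc i
  have key : ∀ i, x i * eval₂ σ y (ψ.F l' b) = x b * eval₂ σ y (ψ.F l' i) := by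
    intro i
    have h1 := hx.2 _ (hinv l l' i b)
    rw [← coe_eval₂Hom, map_sub, map_mul, map_mul, eval₂Hom_X', eval₂Hom_X', coe_eval₂Hom,
      bind_at, bind_at] at h1
    have h2 := sub_eq_zero.1 h1
    rw [hyz, eval2_smul σ (ψ.hom l' b), eval2_smul σ (ψ.hom l' i)]
    calc x i * (c ^ ψ.d l' * eval₂ σ (fun i => eval₂ σ x (φ.F l i)) (ψ.F l' b))
        = c ^ ψ.d l' * (x i * eval₂ σ (fun i => eval₂ σ x (φ.F l i)) (ψ.F l' b)) := by ring
      _ = c ^ ψ.d l' * (x b * eval₂ σ (fun i => eval₂ σ x (φ.F l i)) (ψ.F l' i)) := by rw [h2]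
      _ = _ := by ring
  have hxb : x b ≠ 0 := by
    intro h0
    apply hx.1
    funext i
    have h1 := key i
    rw [h0, zero_mul] at h1
    exact (mul_eq_zero.1 h1).resolve_right hb
  refine ⟨l', ⟨b, hb⟩, x b / eval₂ σ y (ψ.F l' b), div_ne_zero hxb hb, fun i => ?_⟩
  rw [div_mul_eq_mul_div, eq_div_iff hb]
  exact key i

/-- multiples of points are points (for homogeneous ideals) -/
theorem pt_smul (hI : Homog I) (σ : K →+* F) {x : Fin n → F} (hx : Pt σ I x) {s : F}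
    (hs : s ≠ 0) : Pt σ I (s • x) := by
  refine ⟨smul_ne_zero hs hx.1, fun f hf => ?_⟩
  rw [← sum_homogeneousComponent f, ← coe_eval₂Hom, map_sum]
  refine Finset.sum_eq_zero fun d _ => ?_
  rw [coe_eval₂Hom, eval2_smul σ (homogeneousComponent_isHomogeneous d f),
    hx.2 _ (hI f hf d), mul_zero]

/-- the image of a point is a point (for homogeneous ideals) -/
theorem rel_pt (hI : Homog I) (φ : Mor I) (σ : K →+* F) {x y : Fin n → F}
    (hx : Pt σ I x) (h : φ.Rel σ x y) : Pt σ I y := by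
  obtain ⟨l, ⟨a, ha⟩, c, hc, hyc⟩ := h
  have hyz : y = c • (fun i => eval₂ σ x (φ.F l i)) := by
    funext i
    rw [Pi.smul_apply, smul_eq_mul]
    exact hyc i
  rw [hyz]
  refine pt_smul hI σ ⟨?_, fun f hf => ?_⟩ hc
  · intro h0
    exact ha (congrFun h0 a)
  · rw [← bind_at]
    exact hx.2 _ (φ.into l f hf)

theorem rel_exists (φ : Mor I) (σ : K →+* F) {x : Fin n → F} (hx : Pt σ I x) :
    ∃ y, φ.Rel σ x y := by
  obtain ⟨l, a, ha⟩ := exists_ne φ σ hx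
  exact ⟨fun i => eval₂ σ x (φ.F l i), l, ⟨a, ha⟩, 1, one_ne_zero, fun i => (one_mul _).symm⟩

/-- S_rel without `Homog I`, for images which are points -/
theorem relP (φ ψ : Mor I) (hinv : LeftInv ψ φ) (σ : K →+* F) (x : Fin n → F)
    (hx : Pt σ I x) :
    (∃ y, φ.Rel σ x y) ∧ ∀ y, φ.Rel σ x y → (Pt σ I y → ψ.Rel σ y x) ∧
      (∀ s t : F, s ≠ 0 → t ≠ 0 → φ.Rel σ (s • x) (t • y)) ∧
      ∀ s : F, s ≠ 0 → ∀ y', φ.Rel σ (s • x) y' → ∃ t : F, t ≠ 0 ∧ y' = t • y :=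
  ⟨rel_exists φ σ hx, fun _ hy => ⟨fun hpt => rel_inv φ ψ hinv σ hx hy hpt,
    fun _ _ hs ht => rel_smul φ σ hy hs ht,
    fun _ hs _ h' => rel_unique_smul φ σ hx hy hs h'⟩⟩

/-- S_rel for homogeneous ideals -/
theorem relH : ∀ (K F : Type) [Field K] [Field F] (σ : K →+* F) (n : ℕ)
    (I : Ideal (MvPolynomial (Fin n) K)), Homog I →
    ∀ (φ ψ : Mor I), LeftInv ψ φ → ∀ x : Fin n → F, Pt σ I x →
    (∃ y, φ.Rel σ x y) ∧ ∀ y, φ.Rel σ x y → Pt σ I y ∧ ψ.Rel σ y x ∧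
      (∀ s t : F, s ≠ 0 → t ≠ 0 → φ.Rel σ (s • x) (t • y)) ∧
      ∀ s : F, s ≠ 0 → ∀ y', φ.Rel σ (s • x) y' → ∃ t : F, t ≠ 0 ∧ y' = t • y := by
  intro K F _ _ σ n I hI φ ψ hinv x hx
  refine ⟨rel_exists φ σ hx, fun y hy => ⟨rel_pt hI φ σ hx hy, ?_, ?_, ?_⟩⟩
  · exact rel_inv φ ψ hinv σ hx hy (rel_pt hI φ σ hx hy)
  · exact fun _ _ hs ht => rel_smul φ σ hy hs ht
  · exact fun _ hs _ h' => rel_unique_smul φ σ hx hy hs h'

end Pool.Agent.Q190.SA
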