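import Pool.Agent.Q44.SA.Stm
import Pool.Agent.Q96.WK.GD

set_option autoImplicit false

/-! Project SA (helper44), job SA-GD (helper190), after Q96/WK/GD. -/

namespace Pool.Agent.Q190.SA

open Pool.Agent.Q44.SA MvPolynomial
open Pool.Agent.Q96.WK.GD (OO mem_OO integral_mem)

theorem eval_mem {K L : Type} [Field K] [NontriviallyNormedField L] [IsUltrametricDist L] {n : ℕ}
    (σ : K →+* L) (p : MvPolynomial (Fin n) K) (hp : ∀ d ∈ p.support, ‖σ (coeff d p)‖ ≤ 1)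
    (x : Fin n → L) (hx : ∀ i, ‖x i‖ ≤ 1) : ‖eval₂ σ x p‖ ≤ 1 := by
  rw [← mem_OO, eval₂_eq']
  refine Subring.sum_mem _ fun d hd => Subring.mul_mem _ ?_
    (Subring.prod_mem _ fun i _ => Subring.pow_mem _ ?_ _)
  · exact (mem_OO _).2 (hp d hd)
  · exact (mem_OO _).2 (hx i)

theorem base_expl {K : Type} [Field K] {n : ℕ} {I : Ideal (MvPolynomial (Fin n) K)} (φ : Mor I)
    (k : Fin n) : ∃ (M : ℕ) (q : Fin φ.p × Fin n → MvPolynomial (Fin n) K),
      X k ^ M - ∑ j, q j * φ.F j.1 j.2 ∈ I := by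
  obtain ⟨M, hM⟩ := Ideal.mem_radical_iff.1 (φ.base k)
  obtain ⟨g, hg, h, hh, hgh⟩ := Submodule.mem_sup.1 hM
  have h1 : {g | ∃ l a, g = φ.F l a} = Set.range (fun j : Fin φ.p × Fin n => φ.F j.1 j.2) := by
    ext f
    constructor
    · rintro ⟨l, a, rfl⟩
      exact ⟨(l, a), rfl⟩
    · rintro ⟨j, rfl⟩
      exact ⟨j.1, j.2, rfl⟩
  rw [h1] at hh
  obtain ⟨q, hq⟩ := Ideal.mem_span_range_iff_exists_fun.1 hh
  refine ⟨M, q, ?_⟩
  rw [hq, ← hgh, add_sub_cancel_right]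
  exact hg

theorem goodM : S_goodM := by
  classical
  intro K _ _ n I φ
  have hb := fun k => base_expl φ k
  choose M q hq using hb
  obtain ⟨T, hT⟩ : ∃ T : Finset K, T =
      (Finset.univ.biUnion fun j : Fin φ.p × Fin n =>
        (φ.F j.1 j.2).support.image fun d => (φ.F j.1 j.2).coeff d) ∪
      (Finset.univ.biUnion fun t : Fin n × (Fin φ.p × Fin n) =>
        (q t.1 t.2).support.image fun d => (q t.1 t.2).coeff d) := ⟨_, rfl⟩
  obtain ⟨y, hy0, hy⟩ := exists_integral_multiples ℤ ℚ T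
  refine ⟨y.natAbs, Int.natAbs_ne_zero.2 hy0, ?_⟩
  intro L _ _ σ hN
  have hy2 : ‖(y : L)‖ = 1 := by
    rcases Int.natAbs_eq y with h3 | h3
    · rw [h3, Int.cast_natCast]
      exact hN
    · rw [h3, Int.cast_neg, Int.cast_natCast, norm_neg]
      exact hN
  have hint : ∀ x ∈ T, ‖σ x‖ ≤ 1 := by
    intro x hx
    have h3 : IsIntegral ℤ (σ (y • x)) := (hy x hx).map σ.toIntAlgHom
    have h4 := (mem_OO _).1 (integral_mem _ h3)
    rw [zsmul_eq_mul, map_mul, map_intCast, norm_mul, hy2, one_mul] at h4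
    exact h4
  have hTF : ∀ j : Fin φ.p × Fin n, ∀ d ∈ (φ.F j.1 j.2).support,
      ‖σ ((φ.F j.1 j.2).coeff d)‖ ≤ 1 := by
    intro j d hd
    apply hint
    rw [hT]
    exact Finset.mem_union_left _
      (Finset.mem_biUnion.2 ⟨j, Finset.mem_univ j, Finset.mem_image_of_mem _ hd⟩)
  have hTq : ∀ t : Fin n × (Fin φ.p × Fin n), ∀ d ∈ (q t.1 t.2).support,
      ‖σ ((q t.1 t.2).coeff d)‖ ≤ 1 := by
    intro t d hd
    apply hint
    rw [hT]
    exact Finset.mem_union_right _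
      (Finset.mem_biUnion.2 ⟨t, Finset.mem_univ t, Finset.mem_image_of_mem _ hd⟩)
  refine ⟨fun l a m => ?_, fun x hx hxn => ?_⟩
  · by_cases hm : m ∈ (φ.F l a).support
    · exact hTF (l, a) m hm
    · rw [notMem_support_iff.1 hm, map_zero, norm_zero]
      exact zero_le_one
  · have hxi : ∀ i, ‖x i‖ ≤ 1 := fun i => (norm_le_pi_norm x i).trans hxn.le
    obtain ⟨k, hk⟩ : ∃ k, ‖x k‖ = 1 := by
      by_contra hcon
      push Not at hcon
      have h1 : ∀ i, ‖x i‖ < 1 := fun i => lt_of_le_of_ne (hxi i) (hcon i)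
      have h2 : ‖x‖ < 1 := (pi_norm_lt_iff one_pos).2 h1
      linarith
    have h1 := hx.2 _ (hq k)
    rw [← coe_eval₂Hom, map_sub, map_sum, map_pow, eval₂Hom_X'] at h1
    have h2 : x k ^ M k = ∑ j : Fin φ.p × Fin n, eval₂Hom σ x (q k j * φ.F j.1 j.2) :=
      sub_eq_zero.1 h1
    have h3 : ‖∑ j : Fin φ.p × Fin n, eval₂Hom σ x (q k j * φ.F j.1 j.2)‖ = 1 := by
      rw [← h2, norm_pow, hk, one_pow]
    have hne : (Finset.univ : Finset (Fin φ.p × Fin n)).Nonempty := by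
      rw [Finset.nonempty_iff_ne_empty]
      intro h0
      rw [h0, Finset.sum_empty, norm_zero] at h3
      exact zero_ne_one h3
    obtain ⟨j, -, hj⟩ := IsUltrametricDist.exists_norm_finsetSum_le_of_nonempty
      hne (fun j : Fin φ.p × Fin n => eval₂Hom σ x (q k j * φ.F j.1 j.2))
    rw [h3, map_mul, norm_mul, coe_eval₂Hom] at hj
    have h4 : ‖eval₂ σ x (q k j)‖ ≤ 1 := eval_mem σ _ (hTq (k, j)) x hxi
    have h5 : ‖eval₂ σ x (φ.F j.1 j.2)‖ ≤ 1 := eval_mem σ _ (hTF j) x hxi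
    exact ⟨j.1, j.2, le_antisymm h5 (hj.trans (mul_le_of_le_one_left (norm_nonneg _) h4))⟩

theorem main_gd : S_goodM := goodM

end Pool.Agent.Q190.SA
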