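import Pool.Agent.Q44.SA.Stm
import Pool.Agent.Q190.SA.Bas

set_option autoImplicit false

/-! Project SA (helper44), job SA-NE (helper190). -/

namespace Pool.Agent.Q190.SA

open Pool.Agent.Q44.SA MvPolynomial

/-- close integral elements -/
def Cl {L : Type} [NormedField L] (ε : ℝ) (a b : L) : Prop := ‖a‖ ≤ 1 ∧ ‖b‖ ≤ 1 ∧ ‖a - b‖ ≤ ε

section

variable {L : Type} [NormedField L] [IsUltrametricDist L] {ε : ℝ}

theorem Cl.mul {a b a' b' : L} (h : Cl ε a b) (h' : Cl ε a' b') (hε : 0 ≤ ε) :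
    Cl ε (a * a') (b * b') := by
  refine ⟨?_, ?_, ?_⟩
  · rw [norm_mul]
    exact mul_le_one₀ h.1 (norm_nonneg _) h'.1
  · rw [norm_mul]
    exact mul_le_one₀ h.2.1 (norm_nonneg _) h'.2.1
  · have e1 : a * a' - b * b' = a * (a' - b') + (a - b) * b' := by ring
    rw [e1]
    refine (IsUltrametricDist.norm_add_le_max _ _).trans (max_le ?_ ?_)
    · rw [norm_mul]
      calc ‖a‖ * ‖a' - b'‖ ≤ 1 * ε := mul_le_mul h.1 h'.2.2 (norm_nonneg _) zero_le_one
        _ = ε := one_mul _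
    · rw [norm_mul]
      calc ‖a - b‖ * ‖b'‖ ≤ ε * 1 := mul_le_mul h.2.2 h'.2.1 (norm_nonneg _) hε
        _ = ε := mul_one _

theorem Cl.refl {a : L} (h : ‖a‖ ≤ 1) (hε : 0 ≤ ε) : Cl ε a a :=
  ⟨h, h, by rw [sub_self, norm_zero]; exact hε⟩

theorem Cl.pow {a b : L} (h : Cl ε a b) (hε : 0 ≤ ε) (k : ℕ) : Cl ε (a ^ k) (b ^ k) := by
  induction k with
  | zero =>
    rw [pow_zero, pow_zero]
    exact Cl.refl (by rw [norm_one]) hε
  | succ k ih =>
    rw [pow_succ, pow_succ]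
    exact ih.mul h hε

theorem Cl.prod {ι : Type} (s : Finset ι) (f g : ι → L) (hε : 0 ≤ ε)
    (h : ∀ i ∈ s, Cl ε (f i) (g i)) : Cl ε (∏ i ∈ s, f i) (∏ i ∈ s, g i) := by
  classical
  induction s using Finset.induction_on with
  | empty =>
    rw [Finset.prod_empty, Finset.prod_empty]
    exact Cl.refl (by rw [norm_one]) hε
  | insert a s ha ih =>
    rw [Finset.prod_insert ha, Finset.prod_insert ha]
    exact (h a (Finset.mem_insert_self a s)).mul
      (ih fun i hi => h i (Finset.mem_insert_of_mem hi)) hε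

theorem Cl.sum {ι : Type} (s : Finset ι) (f g : ι → L) (hε : 0 ≤ ε)
    (h : ∀ i ∈ s, Cl ε (f i) (g i)) : Cl ε (∑ i ∈ s, f i) (∑ i ∈ s, g i) := by
  refine ⟨?_, ?_, ?_⟩
  · exact IsUltrametricDist.norm_sum_le_of_forall_le_of_nonneg zero_le_one fun i hi => (h i hi).1
  · exact IsUltrametricDist.norm_sum_le_of_forall_le_of_nonneg zero_le_one fun i hi => (h i hi).2.1
  · rw [← Finset.sum_sub_distrib]
    exact IsUltrametricDist.norm_sum_le_of_forall_le_of_nonneg hε fun i hi => (h i hi).2.2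

theorem Cl.eval2 {K : Type} [Field K] {n : ℕ} (σ : K →+* L) (p : MvPolynomial (Fin n) K)
    (hp : ∀ m, ‖σ (coeff m p)‖ ≤ 1) (hε : 0 ≤ ε) (x x' : Fin n → L)
    (hx : ∀ i, Cl ε (x i) (x' i)) : Cl ε (eval₂ σ x p) (eval₂ σ x' p) := by
  rw [eval₂_eq', eval₂_eq']
  refine Cl.sum _ _ _ hε fun d _ => ?_
  exact (Cl.refl (hp d) hε).mul (Cl.prod _ _ _ hε fun i _ => (hx i).pow hε _) hε

theorem norm_one_of {n : ℕ} {v : Fin n → L} {a : Fin n} (ha : ‖v a‖ = 1) (h : ∀ i, ‖v i‖ ≤ 1) :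
    ‖v‖ = 1 := by
  refine le_antisymm ((pi_norm_le_iff_of_nonneg zero_le_one).2 h) ?_
  rw [← ha]
  exact norm_le_pi_norm v a

end

theorem nearM : S_nearM := by
  intro K L _ _ _ σ n I φ hg ε hε hε1 x x' y y' hx hx' hxn hxn' hyn hyn' hR hR' hN
  obtain ⟨s, hs, hsx⟩ := hN
  have hs0 : s ≠ 0 := by
    rintro rfl
    rw [norm_zero] at hs
    exact zero_ne_one hs
  obtain ⟨l, a, ha⟩ := hg.2 x hx hxn
  -- the close vectors
  have hcl : ∀ i, Cl ε (x i) ((s • x') i) := by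
    intro i
    refine ⟨(norm_le_pi_norm x i).trans hxn.le, ?_, ?_⟩
    · rw [Pi.smul_apply, smul_eq_mul, norm_mul, hs, one_mul]
      exact (norm_le_pi_norm x' i).trans hxn'.le
    · exact (norm_le_pi_norm (x - s • x') i).trans hsx
  have hcl2 : ∀ b, Cl ε (eval₂ σ x (φ.F l b)) (s ^ φ.d l * eval₂ σ x' (φ.F l b)) := by
    intro b
    rw [← eval2_smul σ (φ.hom l b)]
    exact Cl.eval2 σ _ (hg.1 l b) hε.le _ _ hcl
  have hsd : ‖s ^ φ.d l‖ = 1 := by rw [norm_pow, hs, one_pow]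
  have hsd0 : s ^ φ.d l ≠ 0 := pow_ne_zero _ hs0
  set v : Fin n → L := fun b => eval₂ σ x (φ.F l b) with hv
  set u : Fin n → L := fun b => eval₂ σ x' (φ.F l b) with hu
  have hvn : ‖v‖ = 1 := norm_one_of (a := a) ha fun i => (hcl2 i).1
  have hua : ‖u a‖ = 1 := by
    have h1 := (hcl2 a).2.2
    have h2 : ‖s ^ φ.d l * u a‖ = 1 := by
      refine le_antisymm (hcl2 a).2.1 ?_
      have h3 : ‖v a‖ ≤ max ‖v a - s ^ φ.d l * u a‖ ‖s ^ φ.d l * u a‖ := by
        have h4 := IsUltrametricDist.norm_add_le_max (v a - s ^ φ.d l * u a) (s ^ φ.d l * u a)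
        rwa [sub_add_cancel] at h4
      rw [show ‖v a‖ = 1 from ha] at h3
      rcases le_max_iff.1 h3 with h5 | h5
      · exact absurd (h5.trans h1) (not_le.2 hε1)
      · exact h5
    rw [norm_mul, hsd, one_mul] at h2
    exact h2
  have hun : ‖u‖ = 1 := by
    refine norm_one_of (a := a) hua fun i => ?_
    have h1 := (hcl2 i).2.1
    rw [norm_mul, hsd, one_mul] at h1
    exact h1
  have hv0 : v a ≠ 0 := by
    rw [← norm_ne_zero_iff, show ‖v a‖ = 1 from ha]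
    exact one_ne_zero
  have hu0 : u a ≠ 0 := by
    rw [← norm_ne_zero_iff, hua]
    exact one_ne_zero
  have hRv : φ.Rel σ x v := ⟨l, ⟨a, hv0⟩, 1, one_ne_zero, fun i => (one_mul _).symm⟩
  have hRu : φ.Rel σ x' u := ⟨l, ⟨a, hu0⟩, 1, one_ne_zero, fun i => (one_mul _).symm⟩
  obtain ⟨t, ht0, hty⟩ := rel_unique φ σ hx hRv hR
  obtain ⟨t', ht0', hty'⟩ := rel_unique φ σ hx' hRu hR'
  have htn : ‖t‖ = 1 := by
    have h1 : ‖y‖ = ‖t‖ * ‖v‖ := by rw [hty, norm_smul]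
    rw [hyn, hvn, mul_one] at h1
    exact h1.symm
  have htn' : ‖t'‖ = 1 := by
    have h1 : ‖y'‖ = ‖t'‖ * ‖u‖ := by rw [hty', norm_smul]
    rw [hyn', hun, mul_one] at h1
    exact h1.symm
  refine ⟨t * s ^ φ.d l / t', ?_, ?_⟩
  · rw [norm_div, norm_mul, htn, hsd, htn']
    norm_num
  · have h1 : y - (t * s ^ φ.d l / t') • y' = t • (v - s ^ φ.d l • u) := by
      rw [hty, hty', smul_smul, div_mul_cancel₀ _ ht0', smul_sub, smul_smul]
    rw [h1, norm_smul, htn, one_mul]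
    rw [pi_norm_le_iff_of_nonneg hε.le]
    intro i
    exact (hcl2 i).2.2

theorem main_ne (_h : S_rel) : S_nearM := nearM

end Pool.Agent.Q190.SA
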